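import Pool.Agent.CPT.StmtsB

/-!
CPT, row LIP: the independence of all `m_i y ^ α` in terms of polynomials.
-/

set_option autoImplicit false

namespace Pool.Agent.CPT.H77

open MvPolynomial

theorem aeval_sum {E K : Type} [Field E] [Field K] [Algebra E K] {k : ℕ} (y : Fin k → K)
    (P : MvPolynomial (Fin k) E) (S : Finset (Fin k →₀ ℕ)) (h : P.support ⊆ S) :
    aeval y P = ∑ α ∈ S, coeff α P • α.prod fun i r => y i ^ r := by
  rw [aeval_def, eval₂_eq]
  rw [Finset.sum_subset h]
  · refine Finset.sum_congr rfl fun α _ => ?_
    rw [Algebra.smul_def]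
    rfl
  · intro α _ hα
    rw [notMem_support_iff.1 hα, map_zero, zero_mul]

theorem lip : LipStmt := by
  classical
  intro E K _ _ _ k N y m
  rw [linearIndependent_iff']
  constructor
  · intro h P hP
    let S : Finset (Fin k →₀ ℕ) := Finset.univ.biUnion fun i => (P i).support
    have hS : ∀ i, (P i).support ⊆ S := fun i =>
      Finset.subset_biUnion_of_mem (fun i => (P i).support) (Finset.mem_univ i)
    have h1 := h (Finset.univ ×ˢ S) (fun p => coeff p.2 (P p.1)) (by
      rw [Finset.sum_product, ← hP]
      refine Finset.sum_congr rfl fun i _ => ?_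
      rw [aeval_sum y (P i) S (hS i), Finset.mul_sum]
      refine Finset.sum_congr rfl fun α _ => ?_
      rw [mul_smul_comm])
    funext i
    ext α
    rw [Pi.zero_apply, coeff_zero]
    by_cases hα : α ∈ S
    · exact h1 (i, α) (Finset.mem_product.2 ⟨Finset.mem_univ i, hα⟩)
    · exact notMem_support_iff.1 fun h2 => hα (hS i h2)
  · intro h s g hs p hp
    let S : Finset (Fin k →₀ ℕ) := s.image Prod.snd
    let P : Fin N → MvPolynomial (Fin k) E := fun i =>
      ∑ α ∈ S, monomial α (if (i, α) ∈ s then g (i, α) else 0)
    have hco : ∀ i, ∀ α ∈ S, coeff α (P i) = if (i, α) ∈ s then g (i, α) else 0 := by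
      intro i α hα
      show coeff α (∑ β ∈ S, monomial β (if (i, β) ∈ s then g (i, β) else 0)) = _
      rw [coeff_sum, Finset.sum_eq_single α]
      · rw [coeff_monomial, if_pos rfl]
      · intro β _ hβ
        rw [coeff_monomial, if_neg hβ]
      · intro h2
        exact absurd hα h2
    have hsup : ∀ i, (P i).support ⊆ S := by
      intro i α hα
      by_contra hS
      rw [mem_support_iff] at hα
      apply hα
      show coeff α (∑ β ∈ S, monomial β (if (i, β) ∈ s then g (i, β) else 0)) = 0
      rw [coeff_sum]
      refine Finset.sum_eq_zero fun β hβ => ?_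
      rw [coeff_monomial, if_neg]
      rintro rfl
      exact hS hβ
    have hsub : s ⊆ Finset.univ ×ˢ S := by
      intro q hq
      exact Finset.mem_product.2 ⟨Finset.mem_univ _, Finset.mem_image_of_mem Prod.snd hq⟩
    have hP : ∑ i, m i * aeval y (P i) = 0 := by
      rw [← hs]
      have h3 : ∑ q ∈ s, g q • (m q.1 * q.2.prod fun i r => y i ^ r)
          = ∑ q ∈ Finset.univ ×ˢ S, (if q ∈ s then g q else 0) •
            (m q.1 * q.2.prod fun i r => y i ^ r) := by
        rw [← Finset.sum_subset hsub]
        · refine Finset.sum_congr rfl fun q hq => ?_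
          rw [if_pos hq]
        · intro q _ hq
          rw [if_neg hq, zero_smul]
      rw [h3, Finset.sum_product]
      refine Finset.sum_congr rfl fun i _ => ?_
      rw [aeval_sum y (P i) S (hsup i), Finset.mul_sum]
      refine Finset.sum_congr rfl fun α hα => ?_
      rw [mul_smul_comm, hco i α hα]
    have h4 := h P hP
    have h5 := hco p.1 p.2 (Finset.mem_image_of_mem Prod.snd hp)
    rw [h4, Pi.zero_apply, coeff_zero, if_pos hp] at h5
    exact h5.symm

end Pool.Agent.CPT.H77
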