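import Pool.Agent.CPT.StmtsA
import Pool.Agent.Helper77_CPT.LIP

/-!
CPT, row SPC: step (C), specialization of the first variable.
-/

set_option autoImplicit false

namespace Pool.Agent.CPT.H77

open MvPolynomial

variable {E : Type} [Field E] {n : ℕ}

theorem spec_C (c a : E) : spec c (C a : MvPolynomial (Fin (n + 1)) E) = C a := by
  unfold spec
  rw [aeval_C]
  rfl

theorem spec_X_zero (c : E) : spec c (X 0 : MvPolynomial (Fin (n + 1)) E) = C c := by
  unfold spec
  rw [aeval_X, Fin.cons_zero]

theorem spec_X_succ (c : E) (i : Fin n) :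
    spec c (X i.succ : MvPolynomial (Fin (n + 1)) E) = X i := by
  unfold spec
  rw [aeval_X, Fin.cons_succ]

theorem spec_pderiv (c : E) (i : Fin n) (F : MvPolynomial (Fin (n + 1)) E) :
    spec c (pderiv i.succ F) = pderiv i (spec c F) := by
  induction F using MvPolynomial.induction_on with
  | C a => rw [pderiv_C, map_zero, spec_C, pderiv_C]
  | add p q hp hq => rw [map_add, map_add, map_add, map_add, hp, hq]
  | mul_X p j hp =>
    rw [pderiv_mul, map_add, map_mul, map_mul, map_mul, pderiv_mul, hp]
    congr 2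
    refine Fin.cases ?_ (fun k => ?_) j
    · rw [spec_X_zero, pderiv_C, pderiv_X_of_ne (Fin.succ_ne_zero i).symm, map_zero]
    · rw [spec_X_succ]
      by_cases hk : k = i
      · subst hk
        rw [pderiv_X_self, pderiv_X_self, map_one]
      · rw [pderiv_X_of_ne hk, pderiv_X_of_ne (fun h => hk (Fin.succ_injective n h)), map_zero]

theorem spec_rename (c : E) (p : MvPolynomial (Fin n) E) :
    spec c (rename Fin.succ p) = p := by
  unfold spec
  rw [aeval_rename]
  have h : (Fin.cons (C c) X : Fin (n + 1) → MvPolynomial (Fin n) E) ∘ Fin.succ = X := by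
    funext i
    rw [Function.comp_apply, Fin.cons_succ]
  rw [h, aeval_X_left]
  rfl

theorem dvd_of_spec {c : E} {R : MvPolynomial (Fin (n + 1)) E} (h : spec c R = 0) :
    (X 0 - C c) ∣ R := by
  let I : Ideal (MvPolynomial (Fin (n + 1)) E) := Ideal.span {X 0 - C c}
  have h1 : (Ideal.Quotient.mkₐ E I) = ((Ideal.Quotient.mkₐ E I).comp
      ((rename Fin.succ).comp (spec c : MvPolynomial (Fin (n + 1)) E →ₐ[E] _))) := by
    refine algHom_ext fun j => ?_
    refine Fin.cases ?_ (fun k => ?_) j
    · show Ideal.Quotient.mk I (X 0) = Ideal.Quotient.mk I (rename Fin.succ (spec c (X 0)))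
      rw [spec_X_zero, rename_C, Ideal.Quotient.mk_eq_mk_iff_sub_mem]
      exact Ideal.mem_span_singleton_self _
    · show Ideal.Quotient.mk I (X k.succ) = Ideal.Quotient.mk I (rename Fin.succ (spec c (X k.succ)))
      rw [spec_X_succ, rename_X]
  have h2 := DFunLike.congr_fun h1 R
  have h3 : Ideal.Quotient.mk I R = 0 := by
    rw [show Ideal.Quotient.mk I R = (Ideal.Quotient.mkₐ E I) R from rfl, h2]
    show Ideal.Quotient.mk I (rename Fin.succ (spec c R)) = 0
    rw [h, map_zero, map_zero]
  rw [Ideal.Quotient.eq_zero_iff_mem, Ideal.mem_span_singleton] at h3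
  exact h3

theorem al_inj {F G : MvPolynomial (Fin n) E} (h : al F = al G) : F = G :=
  IsFractionRing.injective (MvPolynomial (Fin n) E) (KK n E) h

theorem al_zero : al (0 : MvPolynomial (Fin n) E) = 0 := map_zero _

theorem al_ne {F : MvPolynomial (Fin n) E} (h : F ≠ 0) : al F ≠ 0 := fun h' =>
  h (al_inj (h'.trans al_zero.symm))

theorem al_add (F G : MvPolynomial (Fin n) E) : al (F + G) = al F + al G := map_add _ _ _

theorem al_mul (F G : MvPolynomial (Fin n) E) : al (F * G) = al F * al G := map_mul _ _ _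

theorem al_pow (F : MvPolynomial (Fin n) E) (k : ℕ) : al (F ^ k) = al F ^ k := map_pow _ _ _

/-- pairs of values -/
def Good (F : MvPolynomial (Fin (n + 1)) E) (c : E) (z : KK (n + 1) E) (w : KK n E) : Prop :=
  ∃ (A : ℕ) (H : MvPolynomial (Fin (n + 1)) E), al H = al F ^ A * z ∧
    al (spec c H) = al (spec c F) ^ A * w

theorem good_al (F : MvPolynomial (Fin (n + 1)) E) (c : E) (s : MvPolynomial (Fin (n + 1)) E) :
    Good F c (al s) (al (spec c s)) :=
  ⟨0, s, by rw [pow_zero, one_mul], by rw [pow_zero, one_mul]⟩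

theorem good_L {F : MvPolynomial (Fin (n + 1)) E} {c : E} (h : spec c F ≠ 0) (i : Fin n) :
    Good F c (L F i.succ) (L (spec c F) i) := by
  have hF : F ≠ 0 := by
    rintro rfl
    exact h (map_zero _)
  refine ⟨1, pderiv i.succ F, ?_, ?_⟩
  · rw [pow_one, L, mul_div_cancel₀ _ (al_ne hF)]
  · rw [pow_one, L, mul_div_cancel₀ _ (al_ne h), spec_pderiv]

theorem good_add {F : MvPolynomial (Fin (n + 1)) E} {c : E} {z z' : KK (n + 1) E} {w w' : KK n E}
    (h : Good F c z w) (h' : Good F c z' w') : Good F c (z + z') (w + w') := by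
  obtain ⟨A, H, h1, h2⟩ := h
  obtain ⟨A', H', h1', h2'⟩ := h'
  refine ⟨A + A', H * F ^ A' + H' * F ^ A, ?_, ?_⟩
  · rw [al_add, al_mul, al_mul, al_pow, al_pow, h1, h1']
    ring
  · rw [map_add, map_mul, map_mul, map_pow, map_pow, al_add, al_mul, al_mul, al_pow, al_pow, h2,
      h2']
    ring

theorem good_mul {F : MvPolynomial (Fin (n + 1)) E} {c : E} {z z' : KK (n + 1) E} {w w' : KK n E}
    (h : Good F c z w) (h' : Good F c z' w') : Good F c (z * z') (w * w') := by
  obtain ⟨A, H, h1, h2⟩ := h
  obtain ⟨A', H', h1', h2'⟩ := h'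
  refine ⟨A + A', H * H', ?_, ?_⟩
  · rw [al_mul, h1, h1']
    ring
  · rw [map_mul, al_mul, h2, h2']
    ring

theorem good_zero {F : MvPolynomial (Fin (n + 1)) E} {c : E} (hF : spec c F ≠ 0) {w : KK n E}
    (h : Good F c 0 w) : w = 0 := by
  obtain ⟨A, H, h1, h2⟩ := h
  rw [mul_zero, ← al_zero] at h1
  rw [al_inj h1, map_zero, al_zero] at h2
  rcases mul_eq_zero.1 h2.symm with h3 | h3
  · exact absurd h3 (pow_ne_zero _ (al_ne hF))
  · exact h3

theorem good_aeval {F : MvPolynomial (Fin (n + 1)) E} {c : E} (h : spec c F ≠ 0)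
    (R : MvPolynomial (Fin (n + 1)) E) :
    Good F c (aeval (ys F) R) (aeval (L (spec c F)) (spec c R)) := by
  induction R using MvPolynomial.induction_on with
  | C a =>
    have h1 := good_al F c (C a)
    rw [spec_C] at h1 ⊢
    rw [aeval_C, aeval_C]
    exact h1
  | add p q hp hq =>
    rw [map_add, map_add, map_add]
    exact good_add hp hq
  | mul_X p j hp =>
    rw [map_mul, map_mul, map_mul]
    refine good_mul hp ?_
    refine Fin.cases ?_ (fun k => ?_) j
    · rw [aeval_X, ys, Fin.cons_zero, spec_X_zero, aeval_C]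
      have h1 := good_al F c (X 0)
      rw [spec_X_zero] at h1
      exact h1
    · rw [aeval_X, ys, Fin.cons_succ, spec_X_succ, aeval_X]
      exact good_L h k

theorem spc : SpcStmt := by
  intro E _ n N F c hF hI
  obtain ⟨m, hm⟩ := hI
  rw [lip E (KK n E) n N (L (spec c F)) m] at hm
  obtain ⟨b, hb⟩ := IsLocalization.exist_integer_multiples_of_finite
    (nonZeroDivisors (MvPolynomial (Fin n) E)) m
  choose p hp using hb
  have hb0 : al (b : MvPolynomial (Fin n) E) ≠ 0 := al_ne (nonZeroDivisors.ne_zero b.2)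
  have hp' : ∀ j, al (p j) = al (b : MvPolynomial (Fin n) E) * m j := by
    intro j
    rw [al, hp j, Algebra.smul_def]
    rfl
  refine ⟨fun j => al (rename Fin.succ (p j)), ?_⟩
  rw [lip E (KK (n + 1) E) (n + 1) N (ys F) (fun j => al (rename Fin.succ (p j)))]
  -- one step
  have hX : (X 0 - C c : MvPolynomial (Fin (n + 1)) E) ≠ 0 := by
    intro h
    have h1 := congrArg (spec (c + 1)) h
    rw [map_sub, spec_X_zero, spec_C, map_zero, ← C_sub, add_sub_cancel_left, C_1] at h1
    exact one_ne_zero h1
  have hU : ¬ IsUnit (X 0 - C c : MvPolynomial (Fin (n + 1)) E) := by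
    intro h
    have h1 := h.map (spec c)
    rw [map_sub, spec_X_zero, spec_C, sub_self] at h1
    exact not_isUnit_zero h1
  have hal : al (X 0 - C c : MvPolynomial (Fin (n + 1)) E) ≠ 0 := al_ne hX
  have step : ∀ R : Fin N → MvPolynomial (Fin (n + 1)) E,
      ∑ j, al (rename Fin.succ (p j)) * aeval (ys F) (R j) = 0 →
      ∃ R' : Fin N → MvPolynomial (Fin (n + 1)) E, (∀ j, R j = (X 0 - C c) * R' j) ∧
        ∑ j, al (rename Fin.succ (p j)) * aeval (ys F) (R' j) = 0 := by
    intro R hR
    have hg : ∀ s : Finset (Fin N), Good F c (∑ j ∈ s, al (rename Fin.succ (p j)) * aeval (ys F) (R j))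
        (∑ j ∈ s, al (p j) * aeval (L (spec c F)) (spec c (R j))) := by
      intro s
      classical
      induction s using Finset.induction_on with
      | empty =>
        rw [Finset.sum_empty, Finset.sum_empty]
        have h1 := good_al F c 0
        rw [map_zero, al_zero, al_zero] at h1
        exact h1
      | insert a s ha ih =>
        rw [Finset.sum_insert ha, Finset.sum_insert ha]
        refine good_add (good_mul ?_ (good_aeval hF (R a))) ih
        have h1 := good_al F c (rename Fin.succ (p a))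
        rw [spec_rename] at h1
        exact h1
    have h1 := hg Finset.univ
    rw [hR] at h1
    have h2 := good_zero hF h1
    have h3 : ∑ j, m j * aeval (L (spec c F)) (spec c (R j)) = 0 := by
      have h4 : al (b : MvPolynomial (Fin n) E) *
          ∑ j, m j * aeval (L (spec c F)) (spec c (R j)) = 0 := by
        rw [← h2, Finset.mul_sum]
        refine Finset.sum_congr rfl fun j _ => ?_
        rw [hp' j, mul_assoc]
      rcases mul_eq_zero.1 h4 with h5 | h5
      · exact absurd h5 hb0
      · exact h5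
    have h4 := hm (fun j => spec c (R j)) h3
    have h5 : ∀ j, (X 0 - C c) ∣ R j := fun j => dvd_of_spec (congrFun h4 j)
    choose R' hR' using h5
    refine ⟨R', hR', ?_⟩
    have h6 : al (X 0 - C c : MvPolynomial (Fin (n + 1)) E) *
        ∑ j, al (rename Fin.succ (p j)) * aeval (ys F) (R' j) = 0 := by
      rw [← hR, Finset.mul_sum]
      refine Finset.sum_congr rfl fun j _ => ?_
      rw [hR' j, map_mul, map_sub, aeval_X, ys, Fin.cons_zero, aeval_C]
      have h7 : al (X 0 - C c : MvPolynomial (Fin (n + 1)) E)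
          = al (X 0) - algebraMap E (KK (n + 1) E) c := by
        rw [al, map_sub]
        rfl
      rw [h7]
      ring
    rcases mul_eq_zero.1 h6 with h5 | h5
    · exact absurd h5 hal
    · exact h5
  have hdvd : ∀ (μ : ℕ) (R : Fin N → MvPolynomial (Fin (n + 1)) E),
      ∑ j, al (rename Fin.succ (p j)) * aeval (ys F) (R j) = 0 →
      ∀ j, (X 0 - C c) ^ μ ∣ R j := by
    intro μ
    induction μ with
    | zero =>
      intro R _ j
      rw [pow_zero]
      exact one_dvd _
    | succ μ ih =>
      intro R hR j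
      obtain ⟨R', h1, h2⟩ := step R hR
      rw [h1 j, pow_succ']
      exact mul_dvd_mul_left _ (ih R' h2 j)
  intro R hR
  funext j
  by_contra hj
  have hj' : R j ≠ 0 := hj
  obtain ⟨k, hk⟩ := FiniteMultiplicity.of_not_isUnit hU hj'
  exact hk (hdvd (k + 1) R hR j)

end Pool.Agent.CPT.H77
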